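import Mathlib
import Pool.Agent.H560R3.GB.Rob

set_option autoImplicit false
set_option maxHeartbeats 1000000

/-! Goldbach representations in residue classes: the main term. -/

namespace Pool.Agent.H945R3.GAP

open Finset Pool.Agent.H373R2.T7 Pool.Agent.H560R3.GB
open ArithmeticFunction (vonMangoldt)

/-- the condition on `a` modulo `p` -/
def Qc (q c n p a : ℕ) : Prop := Qg n p a ∨ (p ∣ q ∧ ¬ a ≡ c [MOD p])

/-- number of admissible classes modulo `p` -/
def Ap (n p : ℕ) : ℕ := if p ∣ n then p - 1 else p - 2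

lemma Qg_iff (n p a : ℕ) : Qg n p a ↔ a ≡ n [MOD p] := by
  unfold Qg
  rw [Nat.modEq_iff_dvd]

lemma rho_c_of_dvd (q c n p : ℕ) (hp : p.Prime) (hpq : p ∣ q) (hc : ¬ p ∣ c)
    (hcn : ¬ c ≡ n [MOD p]) : rhoA (Qc q c n) p = p - 2 := by
  classical
  unfold rhoA
  have hp0 : 0 < p := hp.pos
  have e : (range p).filter (fun r => ¬ p ∣ r ∧ Qc q c n p r) =
      ((range p).erase 0).erase (c % p) := by
    ext r
    simp only [mem_filter, mem_range, mem_erase, Qc, Qg_iff]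
    constructor
    · rintro ⟨h1, h2, h3⟩
      refine ⟨?_, ?_, h1⟩
      · intro h4
        rcases h3 with h5 | ⟨_, h6⟩
        · apply hcn
          have h7 : r ≡ c [MOD p] := by
            rw [h4]; exact Nat.mod_modEq c p
          exact h7.symm.trans h5
        · apply h6
          rw [h4]; exact Nat.mod_modEq c p
      · rintro rfl
        exact h2 (dvd_zero p)
    · rintro ⟨h1, h2, h3⟩
      refine ⟨h3, ?_, Or.inr ⟨hpq, ?_⟩⟩
      · intro h4
        have := Nat.le_of_dvd (Nat.pos_of_ne_zero h2) h4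
        omega
      · intro h4
        apply h1
        have h5 : r % p = c % p := h4
        rwa [Nat.mod_eq_of_lt h3] at h5
  rw [e, card_erase_of_mem, card_erase_of_mem, card_range]
  · omega
  · rw [mem_range]; exact hp0
  · rw [mem_erase, mem_range]
    refine ⟨?_, Nat.mod_lt _ hp0⟩
    intro h4
    exact hc (Nat.dvd_of_mod_eq_zero h4)

lemma rho_c_of_not_dvd (q c n p : ℕ) (hpq : ¬ p ∣ q) : rhoA (Qc q c n) p = rhoA (Qg n) p := by
  classical
  unfold rhoA
  congr 1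
  apply filter_congr
  intro r _
  unfold Qc
  constructor
  · rintro ⟨h1, h2 | ⟨h3, _⟩⟩
    · exact ⟨h1, h2⟩
    · exact absurd h3 hpq
  · rintro ⟨h1, h2⟩
    exact ⟨h1, Or.inl h2⟩

lemma perA_c (q c n : ℕ) (hq : 1 ≤ q) : PerA (Qc q c n) (q + 1) := by
  classical
  constructor
  · intro p a
    unfold Qc
    rw [(perA n).per p a]
    have h1 : a ≡ c [MOD p] ↔ a % p ≡ c [MOD p] := by
      constructor
      · intro h; exact (Nat.mod_modEq a p).trans h
      · intro h; exact (Nat.mod_modEq a p).symm.trans h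
    rw [h1]
  · intro p hp
    by_cases h : p ∣ q
    · have h1 := rhoA_le (Qc q c n) p
      have := Nat.le_of_dvd hq h
      omega
    · rw [rho_c_of_not_dvd q c n p h]
      have := (perA n).few p hp
      omega

/-- number of admissible classes modulo a squarefree `q` -/
def Aq (q n : ℕ) : ℕ := ∏ p ∈ q.primeFactors, Ap n p

/-- the truncated singular series in the class -/
noncomputable def Tc (q c z n : ℕ) : ℝ :=
  (Vz z)⁻¹ * ∏ p ∈ pz z, (1 - (rhoA (Qc q c n) p : ℝ) / (p - 1 : ℝ))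

lemma Ap_pos (n p : ℕ) (hp : p.Prime) (hn : Even n) : 0 < Ap n p := by
  unfold Ap
  have h2 := hp.two_le
  split_ifs with h
  · omega
  · have : p ≠ 2 := by
      rintro rfl
      exact h hn.two_dvd
    omega

lemma Aq_pos (q n : ℕ) (hn : Even n) : 0 < Aq q n :=
  Finset.prod_pos fun p hp => Ap_pos n p (Nat.prime_of_mem_primeFactors hp) hn

lemma Aq_le (q n : ℕ) (hq : 1 ≤ q) : Aq q n ≤ q := by
  unfold Aq
  calc ∏ p ∈ q.primeFactors, Ap n p ≤ ∏ p ∈ q.primeFactors, p := by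
        apply prod_le_prod'
        intro p _
        unfold Ap
        split_ifs <;> omega
    _ ≤ q := Nat.le_of_dvd hq (Nat.prod_primeFactors_dvd q)

lemma Tc_eq (q c z n : ℕ) (hq : 1 ≤ q) (hz : q ≤ z) (hn : Even n)
    (hc : ∀ p ∈ q.primeFactors, ¬ p ∣ c ∧ ¬ c ≡ n [MOD p]) :
    Tc q c z n = Tz z n / Aq q n := by
  classical
  unfold Tc Tz
  rw [mul_div_assoc]
  congr 1
  have hA : (0 : ℝ) < Aq q n := by exact_mod_cast Aq_pos q n hn
  rw [eq_div_iff hA.ne']
  have hsub : q.primeFactors ⊆ pz z := by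
    intro p hp
    rw [mem_pz]
    exact ⟨(Nat.le_of_dvd hq (Nat.dvd_of_mem_primeFactors hp)).trans hz,
      Nat.prime_of_mem_primeFactors hp⟩
  have e1 : (Aq q n : ℝ) = ∏ p ∈ pz z, (if p ∣ q then (Ap n p : ℝ) else 1) := by
    unfold Aq
    push_cast
    rw [← prod_subset hsub]
    · apply prod_congr rfl
      intro p hp
      rw [if_pos (Nat.dvd_of_mem_primeFactors hp)]
    · intro p hp hnp
      rw [mem_pz] at hp
      rw [if_neg]
      intro h
      exact hnp (Nat.mem_primeFactors.2 ⟨hp.2, h, by omega⟩)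
  rw [e1, ← prod_mul_distrib]
  apply prod_congr rfl
  intro p hp
  rw [mem_pz] at hp
  have hpr : (2 : ℝ) ≤ p := by exact_mod_cast hp.2.two_le
  split_ifs with h
  · have hmem : p ∈ q.primeFactors := Nat.mem_primeFactors.2 ⟨hp.2, h, by omega⟩
    obtain ⟨h1, h2⟩ := hc p hmem
    rw [rho_c_of_dvd q c n p hp.2 h h1 h2, rho_eq n p hp.2]
    have h3 : ((p - 2 : ℕ) : ℝ) = (p : ℝ) - 2 := by
      rw [Nat.cast_sub hp.2.two_le]; norm_num
    have h4 : ((p - 1 : ℕ) : ℝ) = (p : ℝ) - 1 := by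
      rw [Nat.cast_sub hp.2.one_le]; norm_num
    have h5 : (p : ℝ) - 1 ≠ 0 := by linarith
    rw [h3]
    unfold Ap
    split_ifs with h6
    · rw [h4]
      field_simp
      push_cast
      ring
    · rw [h3]
      field_simp
      push_cast
      ring
  · rw [rho_c_of_not_dvd q c n p h, mul_one]

/-- for squarefree `q` the conditions modulo the primes give the condition modulo `q` -/
lemma modEq_iff_primes (q a c : ℕ) (hq : Squarefree q) :
    a ≡ c [MOD q] ↔ ∀ p ∈ q.primeFactors, a ≡ c [MOD p] := by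
  constructor
  · intro h p hp
    exact h.of_dvd (Nat.dvd_of_mem_primeFactors hp)
  · intro h
    rw [Nat.modEq_iff_dvd]
    have h0 := Nat.prod_primeFactors_of_squarefree hq
    have h1 : (∏ p ∈ q.primeFactors, (p : ℤ)) = (q : ℤ) := by
      rw [← Nat.cast_prod]
      exact congrArg Nat.cast h0
    rw [← h1]
    apply Finset.prod_dvd_of_coprime
    · intro p hp r hr hpr
      have h2 := Nat.prime_of_mem_primeFactors hp
      have h3 := Nat.prime_of_mem_primeFactors hr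
      exact Nat.isCoprime_iff_coprime.2 ((Nat.coprime_primes h2 h3).2 hpr)
    · intro p hp
      exact Nat.modEq_iff_dvd.1 (h p hp)

/-- the weighted number of representations in the class -/
noncomputable def Rc (q c n : ℕ) : ℝ :=
  ∑ a ∈ (Icc 1 (n - 1)).filter (fun a => a ≡ c [MOD q]), vonMangoldt a * vonMangoldt (n - a)

/-- the model -/
noncomputable def Rzc (q c z n : ℕ) : ℝ :=
  ∑ a ∈ (Icc 1 (n - 1)).filter (fun a => a ≡ c [MOD q]), vonMangoldt a * lamz z (n - a)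

lemma main_term_c (q : ℕ) (hq : 1 ≤ q) (hsq : Squarefree q) (E U : ℕ) : ∃ n0 : ℕ, ∀ n z c : ℕ, n0 ≤ n - 1 →
    q ≤ z → (z : ℝ) ≤ Real.log (n - 1 : ℕ) ^ E →
    |Rzc q c z n - (n - 1 : ℕ) * Tc q c z n| ≤ (Vz z)⁻¹ * ((n - 1 : ℕ) / Real.log (n - 1 : ℕ) ^ U) := by
  classical
  obtain ⟨n0, h0⟩ := sys_main (q + 1) E U (by omega)
  refine ⟨n0, fun n z c hn hz1 hz2 => ?_⟩
  have h := h0 (n - 1) hn z (hq.trans hz1) hz2 (Qc q c n) (perA_c q c n hq)
  have hV : 0 < (Vz z)⁻¹ := inv_pos.2 (Vz_pos z)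
  have hsub : q.primeFactors ⊆ pz z := by
    intro p hp
    rw [mem_pz]
    exact ⟨(Nat.le_of_dvd hq (Nat.dvd_of_mem_primeFactors hp)).trans hz1,
      Nat.prime_of_mem_primeFactors hp⟩
  have e1 : Rzc q c z n = (Vz z)⁻¹ *
      ∑ a ∈ (Icc 1 (n - 1)).filter (fun a : ℕ => ∀ p ∈ pz z, ¬ Qc q c n p a), vonMangoldt a := by
    unfold Rzc
    rw [mul_sum, sum_filter, sum_filter]
    apply sum_congr rfl
    intro a ha
    rw [mem_Icc] at ha
    have hiff : ((a ≡ c [MOD q]) ∧ (∀ p ∈ pz z, ¬ p ∣ (n - a))) ↔ (∀ p ∈ pz z, ¬ Qc q c n p a) := by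
      have hd : ∀ p : ℕ, p ∣ (n - a) ↔ Qg n p a := by
        intro p
        unfold Qg
        rw [← Int.natCast_dvd_natCast, Nat.cast_sub (by omega)]
      rw [modEq_iff_primes q a c hsq]
      constructor
      · rintro ⟨h1, h2⟩ p hp hQ
        rcases hQ with h3 | ⟨h4, h5⟩
        · exact h2 p hp ((hd p).2 h3)
        · exact h5 (h1 p (Nat.mem_primeFactors.2 ⟨(mem_pz.1 hp).2, h4, by omega⟩))
      · intro h1
        refine ⟨fun p hp => ?_, fun p hp h2 => h1 p hp (Or.inl ((hd p).1 h2))⟩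
        by_contra h3
        exact h1 p (hsub hp) (Or.inr ⟨Nat.dvd_of_mem_primeFactors hp, h3⟩)
    unfold lamz
    by_cases hc1 : a ≡ c [MOD q]
    · by_cases hc : ∀ p ∈ pz z, ¬ p ∣ (n - a)
      · rw [if_pos hc1, if_pos hc, if_pos (hiff.1 ⟨hc1, hc⟩), mul_comm]
      · rw [if_pos hc1, if_neg hc, if_neg (fun h => hc (hiff.2 h).2), mul_zero]
    · rw [if_neg hc1, if_neg (fun h => hc1 (hiff.2 h).1)]
  have e2 : Rzc q c z n - (n - 1 : ℕ) * Tc q c z n = (Vz z)⁻¹ *
      (∑ a ∈ (Icc 1 (n - 1)).filter (fun a : ℕ => ∀ p ∈ pz z, ¬ Qc q c n p a), vonMangoldt a -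
        (n - 1 : ℕ) * ∏ p ∈ pz z, (1 - (rhoA (Qc q c n) p : ℝ) / (p - 1 : ℝ))) := by
    rw [e1]
    unfold Tc
    ring
  rw [e2, abs_mul, abs_of_pos hV]
  exact mul_le_mul_of_nonneg_left h hV.le

lemma swap_eq_c (q c N n z : ℕ) (hn : n ≤ N) :
    ∑ a ∈ Icc 1 N, (if a ≡ c [MOD q] then vonMangoldt a else 0) *
      (lamI ((n : ℤ) - a) - lamzI z ((n : ℤ) - a)) = Rc q c n - Rzc q c z n := by
  classical
  unfold Rc Rzc
  rw [← sum_sub_distrib, sum_filter]
  symm
  have hsub : Icc 1 (n - 1) ⊆ Icc 1 N := Icc_subset_Icc le_rfl (by omega)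
  rw [← sum_subset hsub]
  · apply sum_congr rfl
    intro a ha
    rw [mem_Icc] at ha
    unfold lamI lamzI
    have h1 : (1 : ℤ) ≤ (n : ℤ) - a := by omega
    have h2 : ((n : ℤ) - a).toNat = n - a := by omega
    rw [if_pos h1, if_pos h1, h2]
    split_ifs
    · ring
    · ring
  · intro a ha hna
    rw [mem_Icc] at ha hna
    unfold lamI lamzI
    have h1 : ¬ (1 : ℤ) ≤ (n : ℤ) - a := by omega
    rw [if_neg h1, if_neg h1]
    ring

/-- the first moment of the error in one class -/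
theorem gold_c (p C U : ℕ) :
    ∃ B0 : ℕ, ∀ E : ℕ, ∃ N0 : ℕ, ∀ N : ℕ, N0 ≤ N → ∀ (x : ℕ) (s : ℕ → ℕ),
    (∀ m ∈ Icc 1 x, 1 ≤ s m ∧ s m ≤ N) →
    (Pool.Agent.H373R2.T7.energy p x (fun m => (s m : ℤ)) : ℝ) * N ≤ Real.log N ^ C * (x : ℝ) ^ (2 * p) →
    ∀ z : ℕ, Real.log N ^ B0 ≤ z → (z : ℝ) ≤ Real.log N ^ E → ∀ q c : ℕ,
    ∑ m ∈ Icc 1 x, |Rc q c (s m) - Rzc q c z (s m)| ≤ N * x / Real.log N ^ U := by
  classical
  obtain ⟨B0, hB0⟩ := gold_w p C (U + 1)
  refine ⟨B0, fun E => ?_⟩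
  obtain ⟨N1, h1⟩ := hB0 E
  refine ⟨max N1 3, fun N hN x s hs hE z hz1 hz2 q c => ?_⟩
  have hN1 : N1 ≤ N := (le_max_left _ _).trans hN
  have hN3 : 3 ≤ N := (le_max_right _ _).trans hN
  have hNr : (3 : ℝ) ≤ N := by exact_mod_cast hN3
  have hL0 : 0 < Real.log N := Real.log_pos (by linarith)
  have key := h1 N hN1 x s hs hE z hz1 hz2
    (fun a => if a ≡ c [MOD q] ∧ a ≤ N then vonMangoldt a / Real.log N else 0) (by
      intro a
      split_ifs with h
      · rw [abs_of_nonneg (div_nonneg ArithmeticFunction.vonMangoldt_nonneg hL0.le),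
          div_le_one hL0]
        rcases Nat.eq_zero_or_pos a with h0 | h0
        · rw [h0]; simpa using hL0.le
        refine ArithmeticFunction.vonMangoldt_le_log.trans ?_
        apply Real.log_le_log
        · exact_mod_cast h0
        · exact_mod_cast h.2
      · simp)
  have e : ∀ m ∈ Icc 1 x, |∑ a ∈ Icc 1 N, (if a ≡ c [MOD q] ∧ a ≤ N then vonMangoldt a / Real.log N else 0) *
      (lamI ((s m : ℤ) - a) - lamzI z ((s m : ℤ) - a))| =
      |Rc q c (s m) - Rzc q c z (s m)| / Real.log N := by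
    intro m hm
    rw [← swap_eq_c q c N (s m) z (hs m hm).2]
    have h2 : ∑ a ∈ Icc 1 N, (if a ≡ c [MOD q] ∧ a ≤ N then vonMangoldt a / Real.log N else 0) *
      (lamI ((s m : ℤ) - a) - lamzI z ((s m : ℤ) - a)) =
      (∑ a ∈ Icc 1 N, (if a ≡ c [MOD q] then vonMangoldt a else 0) *
      (lamI ((s m : ℤ) - a) - lamzI z ((s m : ℤ) - a))) / Real.log N := by
      rw [sum_div]
      apply sum_congr rfl
      intro a ha
      rw [mem_Icc] at ha
      by_cases h3 : a ≡ c [MOD q]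
      · rw [if_pos ⟨h3, ha.2⟩, if_pos h3]; ring
      · rw [if_neg (fun h => h3 h.1), if_neg h3]; ring
    rw [h2, abs_div, abs_of_pos hL0]
  rw [sum_congr rfl e, ← sum_div, div_le_iff₀ hL0] at key
  refine key.trans (le_of_eq ?_)
  rw [pow_succ]
  field_simp

end Pool.Agent.H945R3.GAP
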