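import Mathlib
import Pool.Agent.H945R3.GAP.A

set_option autoImplicit false
set_option maxHeartbeats 1000000

/-! From the weighted to the unweighted count in a residue class. -/

namespace Pool.Agent.H945R3.GAP

open Finset Pool.Agent.H373R2.T7 Pool.Agent.H560R3.GB
open ArithmeticFunction (vonMangoldt)

/-- the number of representations `n = a + b` with primes `a`, `b` and `a ≡ c` modulo `q` -/
def gc (q c n : ℕ) : ℕ :=
  ((antidiagonal n).filter (fun t : ℕ × ℕ => t.1.Prime ∧ t.2.Prime ∧ t.1 ≡ c [MOD q])).card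

lemma Rc_eq (q c n : ℕ) : Rc q c n = ∑ t ∈ antidiagonal n,
    if t.1 ≡ c [MOD q] then vonMangoldt t.1 * vonMangoldt t.2 else 0 := by
  classical
  unfold Rc
  rw [Finset.Nat.sum_antidiagonal_eq_sum_range_succ_mk, sum_filter]
  apply sum_subset
  · intro a ha
    rw [mem_Icc] at ha
    rw [mem_range]
    omega
  · intro a ha hn
    rw [mem_range] at ha
    rw [mem_Icc] at hn
    rcases Nat.eq_zero_or_pos a with h | h
    · rw [h]; simp
    · have : n - a = 0 := by omega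
      simp only [this]
      simp

lemma gc_real (q c n : ℕ) : (gc q c n : ℝ) = ∑ t ∈ antidiagonal n,
    if t.1.Prime ∧ t.2.Prime ∧ t.1 ≡ c [MOD q] then (1 : ℝ) else 0 := by
  unfold gc
  rw [card_filter]
  push_cast
  rfl

/-- upper bound for the weighted count -/
lemma Rc_upper (q c n : ℕ) (hn : 1 ≤ n) :
    Rc q c n ≤ Real.log n ^ 2 * gc q c n + 4 * √(n : ℝ) * Real.log n ^ 2 := by
  classical
  have hl : 0 ≤ Real.log n := Real.log_nonneg (by exact_mod_cast hn)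
  have h1 : ∀ q' ∈ antidiagonal n, (if q'.1 ≡ c [MOD q] then vonMangoldt q'.1 * vonMangoldt q'.2 else 0) ≤
      Real.log n ^ 2 * (if q'.1.Prime ∧ q'.2.Prime ∧ q'.1 ≡ c [MOD q] then (1 : ℝ) else 0) +
        Real.log n * (vonMangoldt q'.1 - lp q'.1) + Real.log n * (vonMangoldt q'.2 - lp q'.2) := by
    intro q' hq
    obtain ⟨a1, a2⟩ := log_le_of n q' hq hn
    have b1 : (0 : ℝ) ≤ vonMangoldt q'.1 := ArithmeticFunction.vonMangoldt_nonneg
    have b2 : (0 : ℝ) ≤ vonMangoldt q'.2 := ArithmeticFunction.vonMangoldt_nonneg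
    have c1 := lp_le q'.1
    have c2 := lp_le q'.2
    have d1 : 0 ≤ Real.log n * (vonMangoldt q'.1 - lp q'.1) := mul_nonneg hl (by linarith)
    have d2 : 0 ≤ Real.log n * (vonMangoldt q'.2 - lp q'.2) := mul_nonneg hl (by linarith)
    by_cases hcl : q'.1 ≡ c [MOD q]
    swap
    · rw [if_neg hcl, if_neg (fun h => hcl h.2.2), mul_zero, zero_add]
      linarith
    rw [if_pos hcl]
    by_cases h : q'.1.Prime ∧ q'.2.Prime
    · rw [if_pos ⟨h.1, h.2, hcl⟩]
      have : vonMangoldt q'.1 * vonMangoldt q'.2 ≤ Real.log n * Real.log n := mul_le_mul a1 a2 b2 hl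
      nlinarith
    · rw [if_neg (fun h' => h ⟨h'.1, h'.2.1⟩), mul_zero, zero_add]
      by_cases h1 : q'.1.Prime
      · have h2 : ¬ q'.2.Prime := fun h2 => h ⟨h1, h2⟩
        have e : lp q'.2 = 0 := by unfold Pool.Agent.H560R3.GB.lp; rw [if_neg h2]
        rw [e] at d2 ⊢
        have : vonMangoldt q'.1 * vonMangoldt q'.2 ≤ Real.log n * vonMangoldt q'.2 := mul_le_mul_of_nonneg_right a1 b2
        linarith
      · have e : lp q'.1 = 0 := by unfold Pool.Agent.H560R3.GB.lp; rw [if_neg h1]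
        rw [e] at d1 ⊢
        have : vonMangoldt q'.1 * vonMangoldt q'.2 ≤ vonMangoldt q'.1 * Real.log n := mul_le_mul_of_nonneg_left a2 b1
        linarith
  rw [Rc_eq]
  refine (sum_le_sum h1).trans ?_
  rw [sum_add_distrib, sum_add_distrib, ← mul_sum, ← mul_sum, ← mul_sum, ← gc_real]
  have e1 : ∑ q ∈ antidiagonal n, (vonMangoldt q.1 - lp q.1) = ∑ a ∈ range (n + 1), (vonMangoldt a - lp a) :=
    Finset.Nat.sum_antidiagonal_eq_sum_range_succ_mk (fun q : ℕ × ℕ => vonMangoldt q.1 - lp q.1) n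
  have e2 : ∑ q ∈ antidiagonal n, (vonMangoldt q.2 - lp q.2) = ∑ a ∈ range (n + 1), (vonMangoldt a - lp a) := by
    rw [← e1]
    rw [← Finset.Nat.sum_antidiagonal_swap]
    rfl
  rw [e1, e2]
  have h2 := sum_pp n hn
  have h3 : Real.log n * ∑ a ∈ range (n + 1), (vonMangoldt a - lp a) ≤ Real.log n * (2 * √(n : ℝ) * Real.log n) :=
    mul_le_mul_of_nonneg_left h2 hl
  nlinarith

/-- lower bound for the weighted count -/
lemma Rc_lower (q c n : ℕ) (T l : ℝ) (hT : 1 ≤ T) (hl : 0 ≤ l) (hlT : l ≤ Real.log T) :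
    l ^ 2 * gc q c n ≤ Rc q c n + 2 * (T + 1) * l ^ 2 := by
  classical
  have h1 : ∀ q' ∈ antidiagonal n, l ^ 2 * (if q'.1.Prime ∧ q'.2.Prime ∧ q'.1 ≡ c [MOD q] then (1 : ℝ) else 0) ≤
      (if q'.1 ≡ c [MOD q] then vonMangoldt q'.1 * vonMangoldt q'.2 else 0) + l ^ 2 * (if (q'.1 : ℝ) ≤ T then (1 : ℝ) else 0) +
        l ^ 2 * (if (q'.2 : ℝ) ≤ T then (1 : ℝ) else 0) := by
    intro q' hq
    have b1 : (0 : ℝ) ≤ vonMangoldt q'.1 := ArithmeticFunction.vonMangoldt_nonneg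
    have b2 : (0 : ℝ) ≤ vonMangoldt q'.2 := ArithmeticFunction.vonMangoldt_nonneg
    have b3 := mul_nonneg b1 b2
    have b4 : (0 : ℝ) ≤ (if q'.1 ≡ c [MOD q] then vonMangoldt q'.1 * vonMangoldt q'.2 else 0) := by
      split_ifs
      · exact b3
      · exact le_rfl
    have hl2 : 0 ≤ l ^ 2 := by positivity
    have i1 : 0 ≤ l ^ 2 * (if (q'.1 : ℝ) ≤ T then (1 : ℝ) else 0) := mul_nonneg hl2 (by split_ifs <;> norm_num)
    have i2 : 0 ≤ l ^ 2 * (if (q'.2 : ℝ) ≤ T then (1 : ℝ) else 0) := mul_nonneg hl2 (by split_ifs <;> norm_num)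
    by_cases h : q'.1.Prime ∧ q'.2.Prime ∧ q'.1 ≡ c [MOD q]
    · rw [if_pos h, mul_one, if_pos h.2.2]
      by_cases t1 : (q'.1 : ℝ) ≤ T
      · rw [if_pos t1, mul_one]
        linarith
      · by_cases t2 : (q'.2 : ℝ) ≤ T
        · rw [if_pos t2, mul_one]
          linarith
        · push Not at t1 t2
          have c1 : l ≤ vonMangoldt q'.1 := by
            rw [ArithmeticFunction.vonMangoldt_apply_prime h.1]
            exact hlT.trans (Real.log_le_log (by linarith) t1.le)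
          have c2 : l ≤ vonMangoldt q'.2 := by
            rw [ArithmeticFunction.vonMangoldt_apply_prime h.2.1]
            exact hlT.trans (Real.log_le_log (by linarith) t2.le)
          have c3 : l * l ≤ vonMangoldt q'.1 * vonMangoldt q'.2 := mul_le_mul c1 c2 hl b1
          nlinarith
    · rw [if_neg h, mul_zero]
      linarith
  have h2 := sum_le_sum h1
  rw [← mul_sum, ← gc_real, sum_add_distrib, sum_add_distrib, ← mul_sum, ← mul_sum] at h2
  have hcnt : ∑ a ∈ range (n + 1), (if (a : ℝ) ≤ T then (1 : ℝ) else 0) ≤ T + 1 := by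
    rw [← sum_filter, sum_const, nsmul_eq_mul, mul_one]
    have h3 : ((range (n + 1)).filter (fun a : ℕ => (a : ℝ) ≤ T)).card ≤ ⌊T⌋₊ + 1 := by
      calc _ ≤ (range (⌊T⌋₊ + 1)).card := by
            apply card_le_card
            intro a ha
            rw [mem_filter] at ha
            rw [mem_range]
            have := Nat.le_floor ha.2
            omega
        _ = _ := card_range _
    have h4 : (((range (n + 1)).filter (fun a : ℕ => (a : ℝ) ≤ T)).card : ℝ) ≤ ⌊T⌋₊ + 1 := by exact_mod_cast h3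
    have h5 := Nat.floor_le (show 0 ≤ T by linarith)
    linarith
  have e1 : ∑ q ∈ antidiagonal n, (if (q.1 : ℝ) ≤ T then (1 : ℝ) else 0) = ∑ a ∈ range (n + 1), (if (a : ℝ) ≤ T then (1 : ℝ) else 0) :=
    Finset.Nat.sum_antidiagonal_eq_sum_range_succ_mk (fun q : ℕ × ℕ => if (q.1 : ℝ) ≤ T then (1 : ℝ) else 0) n
  have e2 : ∑ q ∈ antidiagonal n, (if (q.2 : ℝ) ≤ T then (1 : ℝ) else 0) = ∑ a ∈ range (n + 1), (if (a : ℝ) ≤ T then (1 : ℝ) else 0) := by
    rw [← e1]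
    rw [← Finset.Nat.sum_antidiagonal_swap]
    rfl
  rw [e1, e2] at h2
  have h6 : l ^ 2 * ∑ a ∈ range (n + 1), (if (a : ℝ) ≤ T then (1 : ℝ) else 0) ≤ l ^ 2 * (T + 1) :=
    mul_le_mul_of_nonneg_left hcnt (by positivity)
  rw [← Rc_eq] at h2
  linarith

/-- the transition; `κ` is a lower bound for the density `T` -/
lemma transfer_c (κ ε : ℝ) (hκ : 0 < κ) (hε : 0 < ε) (hε1 : ε ≤ 1) : ∃ n1 : ℕ, ∀ n : ℕ, n1 ≤ n →
    ∀ q c : ℕ, ∀ T S : ℝ, κ ≤ T →
    |Rc q c n - n * T| ≤ ε / 16 * (n * T) → |S - T| ≤ ε / 16 * T →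
    |(gc q c n : ℝ) - S * (n / Real.log n ^ 2)| ≤ ε * (S * (n / Real.log n ^ 2)) := by
  set δ : ℝ := ε / 16 with hδ
  have hδ0 : 0 < δ := by positivity
  have hδ1 : δ ≤ 1 / 16 := by rw [hδ]; linarith
  have hlim : Filter.Tendsto (fun n : ℕ => (n : ℝ)) Filter.atTop Filter.atTop := tendsto_natCast_atTop_atTop
  have h1 : ∀ᶠ n : ℕ in Filter.atTop, Real.log n ^ 2 ≤ (δ * κ / 4) * (n : ℝ) ^ (1 / 2 : ℝ) := by
    have h := (isLittleO_log_rpow_rpow_atTop (2 : ℝ) (show (0 : ℝ) < 1 / 2 by norm_num)).bound (show 0 < δ * κ / 4 by positivity)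
    filter_upwards [hlim.eventually h, hlim.eventually_ge_atTop 1] with n hn hn1
    have h0 : 0 ≤ Real.log (n : ℝ) := Real.log_nonneg hn1
    rw [Real.norm_of_nonneg (by positivity), Real.norm_of_nonneg (by positivity), Real.rpow_two] at hn
    exact hn
  have h2 : ∀ᶠ n : ℕ in Filter.atTop, Real.log n ^ 2 ≤ (δ * κ / 4) * (n : ℝ) ^ δ := by
    have h := (isLittleO_log_rpow_rpow_atTop (2 : ℝ) (show (0 : ℝ) < δ by positivity)).bound (show 0 < δ * κ / 4 by positivity)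
    filter_upwards [hlim.eventually h, hlim.eventually_ge_atTop 1] with n hn hn1
    have h0 : 0 ≤ Real.log (n : ℝ) := Real.log_nonneg hn1
    rw [Real.norm_of_nonneg (by positivity), Real.norm_of_nonneg (by positivity), Real.rpow_two] at hn
    exact hn
  obtain ⟨n1, hn1⟩ := Filter.eventually_atTop.1 (h1.and h2)
  refine ⟨max n1 3, fun n hn q c T S hT1 hR hS => ?_⟩
  obtain ⟨a1, a2⟩ := hn1 n ((le_max_left _ _).trans hn)
  have hn3 : 3 ≤ n := (le_max_right _ _).trans hn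
  have hnr : (3 : ℝ) ≤ n := by exact_mod_cast hn3
  have hn0 : (0 : ℝ) < n := by linarith
  have hlog1 : 0 < Real.log n := Real.log_pos (by linarith)
  set ℓ := Real.log (n : ℝ) with hℓ
  have hup := Rc_upper q c n (by omega)
  have hlo := Rc_lower q c n ((n : ℝ) ^ (1 - δ)) ((1 - δ) * ℓ)
    (Real.one_le_rpow (by linarith) (by linarith)) (mul_nonneg (by linarith) hlog1.le)
    (by rw [Real.log_rpow hn0])
  rw [← hℓ] at hup
  have b1 : 4 * √(n : ℝ) * ℓ ^ 2 ≤ δ * κ * n := by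
    rw [Real.sqrt_eq_rpow]
    have e : (n : ℝ) ^ (1 / 2 : ℝ) * (n : ℝ) ^ (1 / 2 : ℝ) = n := by
      rw [← Real.rpow_add hn0]; norm_num
    have h0 : 0 ≤ (n : ℝ) ^ (1 / 2 : ℝ) := by positivity
    calc 4 * (n : ℝ) ^ (1 / 2 : ℝ) * ℓ ^ 2 ≤ 4 * (n : ℝ) ^ (1 / 2 : ℝ) * ((δ * κ / 4) * (n : ℝ) ^ (1 / 2 : ℝ)) :=
          mul_le_mul_of_nonneg_left a1 (by positivity)
      _ = δ * κ * ((n : ℝ) ^ (1 / 2 : ℝ) * (n : ℝ) ^ (1 / 2 : ℝ)) := by ring
      _ = δ * κ * n := by rw [e]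
  have b2 : 2 * ((n : ℝ) ^ (1 - δ) + 1) * ((1 - δ) * ℓ) ^ 2 ≤ δ * κ * n := by
    have e : (n : ℝ) ^ (1 - δ) * (n : ℝ) ^ δ = n := by
      rw [← Real.rpow_add hn0]; norm_num
    have h0 : 1 ≤ (n : ℝ) ^ (1 - δ) := Real.one_le_rpow (by linarith) (by linarith)
    have h5 : ((1 - δ) * ℓ) ^ 2 ≤ ℓ ^ 2 := by
      rw [mul_pow]
      apply mul_le_of_le_one_left (by positivity)
      nlinarith
    calc 2 * ((n : ℝ) ^ (1 - δ) + 1) * ((1 - δ) * ℓ) ^ 2 ≤ 2 * ((n : ℝ) ^ (1 - δ) + (n : ℝ) ^ (1 - δ)) * ((δ * κ / 4) * (n : ℝ) ^ δ) := by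
          apply mul_le_mul _ (h5.trans a2) (by positivity) (by positivity)
          linarith
      _ = δ * κ * ((n : ℝ) ^ (1 - δ) * (n : ℝ) ^ δ) := by ring
      _ = δ * κ * n := by rw [e]
  obtain ⟨r1, r2⟩ := abs_le.1 hR
  obtain ⟨s1, s2⟩ := abs_le.1 hS
  set W : ℝ := n * T with hW
  have hWn : κ * (n : ℝ) ≤ W := by
    rw [hW, mul_comm]; exact mul_le_mul_of_nonneg_left hT1 hn0.le
  have hκn : 0 < κ * n := by positivity
  have hW0 : 0 < W := by linarith
  have hδW : δ * κ * n ≤ δ * W := by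
    calc δ * κ * n = δ * (κ * n) := by ring
      _ ≤ _ := mul_le_mul_of_nonneg_left hWn hδ0.le
  set M : ℝ := S * n with hM
  have m1 : (1 - δ) * W ≤ M := by
    have : (T - δ * T) * n ≤ S * n := mul_le_mul_of_nonneg_right (by linarith) hn0.le
    rw [hW, hM]; linarith
  have m2 : M ≤ (1 + δ) * W := by
    have : S * n ≤ (T + δ * T) * n := mul_le_mul_of_nonneg_right (by linarith) hn0.le
    rw [hW, hM]; linarith
  have hM0 : 0 < M := lt_of_lt_of_le (mul_pos (by linarith) hW0) m1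
  set Gn : ℝ := (gc q c n : ℝ) with hGn
  have g1 : (1 - 2 * δ) * W ≤ ℓ ^ 2 * Gn := by linarith
  have g2 : (1 - δ) ^ 2 * (ℓ ^ 2 * Gn) ≤ (1 + 2 * δ) * W := by
    have : (1 - δ) ^ 2 * (ℓ ^ 2 * Gn) = ((1 - δ) * ℓ) ^ 2 * Gn := by ring
    rw [this]
    linarith
  have hfin := arith δ ε W M (ℓ ^ 2 * Gn) hδ0 hδ1 (by rw [hδ]; ring) hW0 m1 m2 g1 g2
  have e : S * (n / ℓ ^ 2) = M / ℓ ^ 2 := by rw [hM]; ring
  have hl2 : 0 < ℓ ^ 2 := by positivity
  rw [e]
  have e2 : Gn - M / ℓ ^ 2 = (ℓ ^ 2 * Gn - M) / ℓ ^ 2 := by field_simp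
  rw [e2, abs_div, abs_of_pos hl2, ← mul_div_assoc]
  exact div_le_div_of_nonneg_right hfin hl2.le

/-- the statement for a single member and a single class -/
lemma member_c (q : ℕ) (hq : 1 ≤ q) (hsq : Squarefree q) (ε : ℝ) (hε : 0 < ε) (hε1 : ε ≤ 1) (K B0 : ℕ) :
    ∃ N0 : ℕ, ∀ N : ℕ, N0 ≤ N → ∀ n z : ℕ, Even n → n ≤ N →
    (N : ℝ) / Real.log N ^ K < n → Real.log N ^ 2 ≤ z → (z : ℝ) ≤ Real.log N ^ B0 →
    ∀ c : ℕ, (∀ p ∈ q.primeFactors, ¬ p ∣ c ∧ ¬ c ≡ n [MOD p]) →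
    |Rc q c n - Rzc q c z n| ≤ N / Real.log N ^ (K + 2) →
    |(gc q c n : ℝ) - sing n / Aq q n * (n / Real.log n ^ 2)| ≤
      ε * (sing n / Aq q n * (n / Real.log n ^ 2)) := by
  obtain ⟨n0, h0⟩ := main_term_c q hq hsq (B0 + 1) 2
  have hqr : (1 : ℝ) ≤ q := by exact_mod_cast hq
  obtain ⟨n1, h1⟩ := transfer_c (1 / q) ε (by positivity) hε hε1
  obtain ⟨m1, e1⟩ := ev_L' (2 ^ (B0 + 1) + 8 + 200 * q / ε + q)
  obtain ⟨m2, e2⟩ := ev_log' K 2
  obtain ⟨m3, e3⟩ := ev_log' 0 (n0 + n1 + 100 / ε + 2)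
  obtain ⟨m4, e4⟩ := Vz_inv_small B0
  refine ⟨m1 + m2 + m3 + m4 + 3, fun N hN n z hev hnN hn hz1 hz2 c hc hR => ?_⟩
  have a1 := e1 N (by omega)
  have a2 := e2 N (by omega)
  have a3 := e3 N (by omega)
  have hN3 : (3 : ℝ) ≤ N := by exact_mod_cast (by omega : 3 ≤ N)
  have hN0 : (0 : ℝ) < N := by linarith
  set L := Real.log (N : ℝ) with hL
  have hp2 : (0 : ℝ) < 2 ^ (B0 + 1) := by positivity
  have hq1 : 0 < 200 * q / ε := by positivity
  have hq' : 0 < 100 / ε := by positivity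
  have hL8 : 8 ≤ L := by linarith
  have hLq : (q : ℝ) ≤ L := by linarith
  have hL0 : 0 < L := by linarith
  rw [pow_zero, mul_one] at a3
  have hs0 : 0 < √(N : ℝ) := Real.sqrt_pos.2 hN0
  have hss : √(N : ℝ) * √(N : ℝ) = N := Real.mul_self_sqrt hN0.le
  have hn0' : (0 : ℝ) ≤ n0 := Nat.cast_nonneg _
  have hn1' : (0 : ℝ) ≤ n1 := Nat.cast_nonneg _
  have hnbig : 2 * √(N : ℝ) < n := by
    refine lt_of_le_of_lt ?_ hn
    rw [le_div_iff₀ (by positivity)]
    calc 2 * √(N : ℝ) * L ^ K = √(N : ℝ) * (2 * L ^ K) := by ring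
      _ ≤ √(N : ℝ) * √(N : ℝ) := mul_le_mul_of_nonneg_left a2 hs0.le
      _ = N := hss
  have hn1r : (1 : ℝ) ≤ n := by linarith
  have hn1 : 1 ≤ n := by exact_mod_cast hn1r
  have hcast : ((n - 1 : ℕ) : ℝ) = n - 1 := by
    rw [Nat.cast_sub hn1]; simp
  have hsub : √(N : ℝ) ≤ ((n - 1 : ℕ) : ℝ) := by rw [hcast]; linarith
  have hlog1 : L / 2 ≤ Real.log ((n - 1 : ℕ) : ℝ) := by
    have h5 := Real.log_le_log hs0 hsub
    rwa [Real.log_sqrt hN0.le] at h5
  set l := Real.log ((n - 1 : ℕ) : ℝ) with hl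
  have hl0 : 0 < l := by linarith
  have hzq : q ≤ z := by
    have : (q : ℝ) ≤ z := by nlinarith
    exact_mod_cast this
  have hz0 : 1 ≤ z := hq.trans hzq
  have hzl : (z : ℝ) ≤ l ^ (B0 + 1) := by
    calc (z : ℝ) ≤ L ^ B0 := hz2
      _ ≤ (2 * l) ^ B0 := pow_le_pow_left₀ hL0.le (by linarith) _
      _ = 2 ^ B0 * l ^ B0 := mul_pow _ _ _
      _ ≤ l * l ^ B0 := by
          apply mul_le_mul_of_nonneg_right _ (by positivity)
          have : (2 : ℝ) ^ (B0 + 1) = 2 * 2 ^ B0 := by ring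
          linarith
      _ = l ^ (B0 + 1) := by ring
  have hmain := h0 n z c (by
    have : (n0 : ℝ) ≤ ((n - 1 : ℕ) : ℝ) := by linarith
    exact_mod_cast this) hzq hzl
  have hV := e4 N (by omega) z hz0 hz2
  obtain ⟨hs1, hT1⟩ := sing_close z n L hev hn1 (Real.log_le_log (by linarith) (by exact_mod_cast hnN)) hL8 hz1
  have hTc := Tc_eq q c z n hq hzq hev hc
  have hA0 : (0 : ℝ) < Aq q n := by exact_mod_cast Aq_pos q n hev
  have hAq : (Aq q n : ℝ) ≤ q := by exact_mod_cast Aq_le q n hq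
  set A : ℝ := (Aq q n : ℝ) with hA
  set T0 := Tz z n with hT0
  set T := Tc q c z n with hT
  have hTk : 1 / q ≤ T := by
    rw [hTc, div_le_div_iff₀ (by linarith) hA0, one_mul]
    nlinarith
  have hqT : 1 ≤ q * T := by
    have := mul_le_mul_of_nonneg_left hTk (show (0 : ℝ) ≤ q by linarith)
    have e : (q : ℝ) * (1 / q) = 1 := by field_simp
    linarith
  have hTpos : 0 < T := lt_of_lt_of_le (by positivity) hTk
  have hnr0 : (0 : ℝ) < n := by linarith
  have hm1n : ((n - 1 : ℕ) : ℝ) ≤ n := by rw [hcast]; linarith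
  have hmain2 : |Rzc q c z n - (n - 1) * T| ≤ 4 / L * n := by
    rw [← hcast]
    refine hmain.trans ?_
    have h5 : ((n - 1 : ℕ) : ℝ) / l ^ 2 ≤ 4 * n / L ^ 2 := by
      rw [div_le_div_iff₀ (by positivity) (by positivity)]
      have h6 : L ^ 2 ≤ 4 * l ^ 2 := by nlinarith
      calc ((n - 1 : ℕ) : ℝ) * L ^ 2 ≤ n * (4 * l ^ 2) := by
            apply mul_le_mul hm1n h6 (by positivity) hnr0.le
        _ = _ := by ring
    calc (Vz z)⁻¹ * (((n - 1 : ℕ) : ℝ) / l ^ 2) ≤ L * (4 * n / L ^ 2) := by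
          apply mul_le_mul hV h5 _ hL0.le
          apply div_nonneg (Nat.cast_nonneg _) (by positivity)
      _ = 4 / L * n := by field_simp
  have hR2 : |Rc q c n - Rzc q c z n| ≤ 1 / L * n := by
    refine hR.trans ?_
    rw [pow_add]
    have h5 : (N : ℝ) / (L ^ K * L ^ 2) = (N / L ^ K) / L ^ 2 := by field_simp
    rw [h5]
    calc ((N : ℝ) / L ^ K) / L ^ 2 ≤ n / L ^ 2 := div_le_div_of_nonneg_right hn.le (by positivity)
      _ ≤ n / L := by
          apply div_le_div_of_nonneg_left hnr0.le hL0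
          nlinarith
      _ = _ := by ring
  have h200 : 200 * q / ε * ε = 200 * q := by field_simp
  have hfin : |Rc q c n - n * T| ≤ ε / 16 * (n * T) := by
    have h5 : Rc q c n - n * T = (Rc q c n - Rzc q c z n) + (Rzc q c z n - (n - 1) * T) - T := by ring
    rw [h5]
    have h6 : |(Rc q c n - Rzc q c z n) + (Rzc q c z n - (n - 1) * T) - T| ≤ 1 / L * n + 4 / L * n + T := by
      refine (abs_sub _ _).trans ?_
      have := abs_add_le (Rc q c n - Rzc q c z n) (Rzc q c z n - (n - 1) * T)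
      rw [abs_of_pos hTpos]
      linarith
    refine h6.trans ?_
    have h7 : 5 * q / L ≤ ε / 32 := by
      rw [div_le_div_iff₀ hL0 (by norm_num)]
      have h9 : 200 * q / ε ≤ L := by linarith
      have h10 : 200 * q / ε * ε ≤ L * ε := mul_le_mul_of_nonneg_right h9 hε.le
      linarith
    have h8 : 1 / L * n + 4 / L * n = 5 / L * n := by ring
    have h9 : 5 / L * n ≤ ε / 32 * (n * T) := by
      calc 5 / L * n = 5 / L * n * 1 := by ring
        _ ≤ 5 / L * n * (q * T) := mul_le_mul_of_nonneg_left hqT (by positivity)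
        _ = (5 * q / L) * (n * T) := by ring
        _ ≤ ε / 32 * (n * T) := mul_le_mul_of_nonneg_right h7 (by positivity)
    have h10 : T ≤ ε / 32 * (n * T) := by
      have h11 : 1 ≤ ε / 32 * n := by
        have h12 : 100 / ε ≤ n := by linarith
        have h13 : 100 / ε * ε = 100 := by field_simp
        have h14 : 100 / ε * ε ≤ n * ε := mul_le_mul_of_nonneg_right h12 hε.le
        linarith
      calc T = 1 * T := (one_mul _).symm
        _ ≤ ε / 32 * n * T := mul_le_mul_of_nonneg_right h11 (by linarith)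
        _ = _ := by ring
    linarith
  refine h1 n (by
    have : (n1 : ℝ) ≤ n := by linarith
    exact_mod_cast this) q c T (sing n / A) hTk hfin ?_
  have h12 : sing n / A - T = (sing n - T0) / A := by rw [hTc]; ring
  rw [h12, abs_div, abs_of_pos hA0, hTc, ← mul_div_assoc]
  apply div_le_div_of_nonneg_right _ hA0.le
  refine hs1.trans ?_
  apply mul_le_mul_of_nonneg_right _ (by linarith)
  rw [div_le_div_iff₀ hL0 (by norm_num)]
  have h10 : 200 * q / ε * ε ≤ L * ε := mul_le_mul_of_nonneg_right (by linarith) hε.le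
  nlinarith

end Pool.Agent.H945R3.GAP
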