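import Mathlib
import Pool.Agent.H560R3.GB.Defs

set_option autoImplicit false

/-! The Goldbach problem in totient form, with `x` in a residue class: definitions. -/

namespace Pool.Agent.H945R3.GAP

open Finset

/-- the integers `x` with `|x| < n` and `x ≡ r` modulo `q` which solve the system
`φ(n - x) + 1 = n - x`, `φ(n + x) + 1 = n + x` -/
noncomputable def sols (q : ℕ) (r : ℤ) (n : ℕ) : Finset ℤ :=
  (Ioo (-(n : ℤ)) (n : ℤ)).filter (fun x => x ≡ r [ZMOD (q : ℤ)] ∧
    ((Nat.totient ((n : ℤ) - x).toNat : ℤ) + 1 = (n : ℤ) - x ∧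
      (Nat.totient ((n : ℤ) + x).toNat : ℤ) + 1 = (n : ℤ) + x))

/-- the number of the admissible classes: the number of `r ∈ {0, ..., q - 1}` such that
`n ^ 2 - r ^ 2` is prime to `q` -/
def adm (q n : ℕ) : ℕ :=
  ((range q).filter (fun r : ℕ => Int.gcd ((n : ℤ) ^ 2 - (r : ℤ) ^ 2) (q : ℤ) = 1)).card

/-- The integer `n` is good if for every `r` such that `n ^ 2 - r ^ 2` is prime to `q` the system has
a solution `x ≡ r` modulo `q`, and the number of these solutions differs from `HL (2 n) / adm q n` by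
at most `ε` times this quantity. -/
def Good (ε : ℝ) (q n : ℕ) : Prop :=
  ∀ r : ℤ, Int.gcd ((n : ℤ) ^ 2 - r ^ 2) (q : ℤ) = 1 → 0 < (sols q r n).card ∧
    |((sols q r n).card : ℝ) - Pool.Agent.H560R3.GB.HL (2 * n) / adm q n| ≤
      ε * (Pool.Agent.H560R3.GB.HL (2 * n) / adm q n)

open Classical in
/-- the number of the `m ∈ {1, ..., x}` such that `s m` is not good -/
noncomputable def bad (ε : ℝ) (q x : ℕ) (s : ℕ → ℕ) : ℕ :=
  ((Icc 1 x).filter (fun m => ¬ Good ε q (s m))).card

end Pool.Agent.H945R3.GAP
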