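import Mathlib
import Pool.Agent.H945R3.GAP.A

set_option autoImplicit false
set_option maxHeartbeats 1000000

/-! The number of admissible classes. -/

namespace Pool.Agent.H945R3.GAP

open Finset

/-- the number of admissible classes as the number of elements of `ZMod q` -/
noncomputable def Fq (q n : ℕ) : ℕ := Nat.card {r : ZMod q // IsUnit ((n : ZMod q) ^ 2 - r ^ 2)}

lemma Fq_one (n : ℕ) : Fq 1 n = 1 := by
  unfold Fq
  haveI : Subsingleton (ZMod 1) := inferInstanceAs (Subsingleton (Fin 1))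
  rw [Nat.card_eq_one_iff_unique]
  refine ⟨⟨fun a b => Subtype.ext (Subsingleton.elim _ _)⟩, ⟨⟨0, ?_⟩⟩⟩
  exact isUnit_of_subsingleton _

lemma Fq_mul (a b n : ℕ) (hab : a.Coprime b) : Fq (a * b) n = Fq a n * Fq b n := by
  unfold Fq
  rw [← Nat.card_prod]
  apply Nat.card_congr
  have e := ZMod.chineseRemainder hab
  refine (Equiv.subtypeEquiv (q := fun t : ZMod a × ZMod b =>
    IsUnit ((n : ZMod a) ^ 2 - t.1 ^ 2) ∧ IsUnit ((n : ZMod b) ^ 2 - t.2 ^ 2))
    e.toEquiv ?_).trans (Equiv.subtypeProdEquivProd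
      (p := fun r : ZMod a => IsUnit ((n : ZMod a) ^ 2 - r ^ 2))
      (q := fun r : ZMod b => IsUnit ((n : ZMod b) ^ 2 - r ^ 2)))
  intro r
  have h1 : e ((n : ZMod (a * b)) ^ 2 - r ^ 2) = ((n : ZMod a × ZMod b)) ^ 2 - (e r) ^ 2 := by
    rw [map_sub, map_pow, map_pow, map_natCast]
  rw [← MulEquiv.isUnit_map e, h1, Prod.isUnit_iff]
  rfl

lemma Fq_prime (p n : ℕ) (hp : p.Prime) : Fq p n = Ap (2 * n) p := by
  classical
  haveI : Fact p.Prime := ⟨hp⟩
  unfold Fq
  rw [Nat.card_eq_fintype_card, Fintype.card_subtype]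
  have h1 : (univ.filter fun r : ZMod p => IsUnit ((n : ZMod p) ^ 2 - r ^ 2)) =
      univ \ {(n : ZMod p), -(n : ZMod p)} := by
    ext r
    simp only [mem_filter, mem_univ, true_and, mem_sdiff, mem_insert, mem_singleton, isUnit_iff_ne_zero]
    have e : (n : ZMod p) ^ 2 - r ^ 2 = -((r - n) * (r - -n)) := by ring
    rw [e, neg_ne_zero, mul_ne_zero_iff, sub_ne_zero, sub_ne_zero, not_or]
  rw [h1, card_sdiff_of_subset (subset_univ _), card_univ, ZMod.card]
  unfold Ap
  have h2 : (n : ZMod p) = -(n : ZMod p) ↔ p ∣ 2 * n := by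
    rw [← ZMod.natCast_eq_zero_iff]
    push_cast
    constructor
    · intro h
      have := congrArg (fun t => (n : ZMod p) + t) h
      simp only [add_neg_cancel] at this
      rw [two_mul]; exact this
    · intro h
      rw [eq_neg_iff_add_eq_zero, ← two_mul]
      exact h
  split_ifs with h
  · rw [← h2.2 h]
    simp
  · rw [card_pair (fun h3 => h (h2.1 h3))]

lemma Fq_eq (q n : ℕ) (hq : Squarefree q) : Fq q n = Aq q (2 * n) := by
  induction q using Nat.recOnPrimeCoprime with
  | zero => exact absurd hq not_squarefree_zero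
  | prime_pow p k hp =>
    rcases Nat.eq_zero_or_pos k with h | h
    · rw [h, pow_zero, Fq_one]
      simp [Aq]
    · have h1 : k = 1 := by
        have := (Nat.squarefree_pow_iff hp.ne_one (by omega)).1 hq
        exact this.2
      rw [h1, pow_one, Fq_prime p n hp]
      unfold Aq
      rw [hp.primeFactors, prod_singleton]
  | coprime a b ha hb hab iha ihb =>
    rw [Fq_mul a b n hab, iha (hq.of_mul_left), ihb (hq.of_mul_right)]
    unfold Aq
    rw [hab.primeFactors_mul, prod_union hab.disjoint_primeFactors]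

lemma adm_count (q n : ℕ) (hq : Squarefree q) :
    ((range q).filter (fun r : ℕ => Int.gcd ((n : ℤ) ^ 2 - (r : ℤ) ^ 2) (q : ℤ) = 1)).card =
      Aq q (2 * n) := by
  classical
  rw [← Fq_eq q n hq]
  haveI : NeZero q := ⟨hq.ne_zero⟩
  unfold Fq
  rw [Nat.card_eq_fintype_card, Fintype.card_subtype]
  have key : ∀ r : ℕ, Int.gcd ((n : ℤ) ^ 2 - (r : ℤ) ^ 2) (q : ℤ) = 1 ↔
      IsUnit ((n : ZMod q) ^ 2 - (r : ZMod q) ^ 2) := by
    intro r
    have h1 := ZMod.coe_int_isUnit_iff_isCoprime ((n : ℤ) ^ 2 - (r : ℤ) ^ 2) q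
    push_cast at h1
    rw [h1, isCoprime_comm, Int.isCoprime_iff_gcd_eq_one]
  apply Finset.card_nbij' (fun r : ℕ => (r : ZMod q)) (fun r : ZMod q => r.val)
  · intro r hr
    rw [mem_coe, mem_filter] at hr
    rw [mem_coe, mem_filter]
    exact ⟨mem_univ _, (key r).1 hr.2⟩
  · intro r hr
    rw [mem_coe, mem_filter] at hr
    rw [mem_coe, mem_filter, mem_range]
    refine ⟨ZMod.val_lt r, (key _).2 ?_⟩
    rw [ZMod.natCast_zmod_val]
    exact hr.2
  · intro r hr
    rw [mem_coe, mem_filter, mem_range] at hr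
    exact ZMod.val_cast_of_lt hr.1
  · intro r _
    exact ZMod.natCast_zmod_val r

end Pool.Agent.H945R3.GAP
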