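import Mathlib
import Pool.Agent.H945R3.GAP.C
import Pool.Agent.H945R3.GAP.E
import Pool.Agent.H945R3.GAP.Defs

set_option autoImplicit false
set_option maxHeartbeats 1000000

/-! The totient form. -/

namespace Pool.Agent.H945R3.GAP

open Finset Pool.Agent.H560R3.GB

lemma tot_iff (k : ℤ) (hk : 1 ≤ k) : ((Nat.totient k.toNat : ℤ) + 1 = k) ↔ k.toNat.Prime := by
  have h1 : (k.toNat : ℤ) = k := Int.toNat_of_nonneg (by omega)
  have h2 : 0 < k.toNat := by omega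
  rw [← Nat.totient_eq_iff_prime h2]
  constructor
  · intro h; omega
  · intro h; omega

/-- the class -/
def cl (q : ℕ) (r : ℤ) (n : ℕ) : ℕ := (((n : ℤ) - r) % (q : ℤ)).toNat

lemma cl_cast (q : ℕ) (hq : 1 ≤ q) (r : ℤ) (n : ℕ) : ((cl q r n : ℕ) : ℤ) = ((n : ℤ) - r) % (q : ℤ) := by
  unfold cl
  exact Int.toNat_of_nonneg (Int.emod_nonneg _ (by omega))

lemma cl_modEq (q : ℕ) (hq : 1 ≤ q) (r : ℤ) (n : ℕ) : ((cl q r n : ℕ) : ℤ) ≡ (n : ℤ) - r [ZMOD (q : ℤ)] := by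
  rw [cl_cast q hq]
  exact Int.mod_modEq _ _

lemma card_sols (q : ℕ) (hq : 1 ≤ q) (r : ℤ) (n : ℕ) :
    (sols q r n).card = gc q (cl q r n) (2 * n) := by
  classical
  have hcl := cl_modEq q hq r n
  unfold gc sols
  apply Finset.card_nbij' (fun x : ℤ => (((n : ℤ) - x).toNat, ((n : ℤ) + x).toNat))
    (fun t : ℕ × ℕ => (n : ℤ) - t.1)
  · intro x hx
    rw [mem_coe, mem_filter, mem_Ioo] at hx
    obtain ⟨⟨h1, h2⟩, h3, h4, h5⟩ := hx
    rw [mem_coe, mem_filter]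
    have e1 : (((n : ℤ) - x).toNat : ℤ) = (n : ℤ) - x := Int.toNat_of_nonneg (by omega)
    refine ⟨?_, (tot_iff _ (by omega)).1 h4, (tot_iff _ (by omega)).1 h5, ?_⟩
    · rw [HasAntidiagonal.mem_antidiagonal]
      simp only
      omega
    · rw [← Int.natCast_modEq_iff]
      simp only
      rw [e1]
      exact ((Int.ModEq.refl (n : ℤ)).sub h3).trans hcl.symm
  · intro t ht
    rw [mem_coe, mem_filter, HasAntidiagonal.mem_antidiagonal] at ht
    obtain ⟨h1, h2, h3, h4⟩ := ht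
    have p1 := h2.pos
    have p2 := h3.pos
    rw [mem_coe, mem_filter, mem_Ioo]
    dsimp only
    have e1 : (n : ℤ) - ((n : ℤ) - t.1) = t.1 := by ring
    have e2 : (n : ℤ) + ((n : ℤ) - t.1) = t.2 := by omega
    refine ⟨⟨by omega, by omega⟩, ?_, ?_, ?_⟩
    · have h5 : (t.1 : ℤ) ≡ (cl q r n : ℕ) [ZMOD (q : ℤ)] := Int.natCast_modEq_iff.2 h4
      have h6 := (Int.ModEq.refl (n : ℤ)).sub (h5.trans hcl)
      have e3 : (n : ℤ) - ((n : ℤ) - r) = r := by ring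
      rwa [e3] at h6
    · rw [tot_iff _ (by omega), e1]
      simpa using h2
    · rw [tot_iff _ (by omega), e2]
      simpa using h3
  · intro x hx
    rw [mem_coe, mem_filter, mem_Ioo] at hx
    simp only
    omega
  · intro t ht
    rw [mem_coe, mem_filter, HasAntidiagonal.mem_antidiagonal] at ht
    obtain ⟨h1, _⟩ := ht
    apply Prod.ext
    · simp only
      omega
    · simp only
      omega

lemma cl_adm (q : ℕ) (hq : 1 ≤ q) (r : ℤ) (n : ℕ) (hr : IsCoprime ((n : ℤ) ^ 2 - r ^ 2) (q : ℤ)) :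
    ∀ p ∈ q.primeFactors, ¬ p ∣ cl q r n ∧ ¬ cl q r n ≡ 2 * n [MOD p] := by
  intro p hp
  have hpp := Nat.prime_of_mem_primeFactors hp
  have hpq : (p : ℤ) ∣ (q : ℤ) := by exact_mod_cast Nat.dvd_of_mem_primeFactors hp
  have hcl : ((cl q r n : ℕ) : ℤ) ≡ (n : ℤ) - r [ZMOD (p : ℤ)] := (cl_modEq q hq r n).of_dvd hpq
  have hno : ¬ (p : ℤ) ∣ (n : ℤ) ^ 2 - r ^ 2 := by
    intro h
    have h1 := hr.isUnit_of_dvd' h hpq
    have h2 := (Nat.prime_iff_prime_int.1 hpp).not_isUnit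
    exact h2 h1
  have e : (n : ℤ) ^ 2 - r ^ 2 = ((n : ℤ) - r) * ((n : ℤ) + r) := by ring
  constructor
  · intro h
    apply hno
    rw [e]
    apply Dvd.dvd.mul_right
    have h1 : (p : ℤ) ∣ ((cl q r n : ℕ) : ℤ) := by exact_mod_cast h
    exact hcl.dvd_iff.1 h1
  · intro h
    apply hno
    rw [e]
    apply Dvd.dvd.mul_left
    have h1 : ((cl q r n : ℕ) : ℤ) ≡ ((2 * n : ℕ) : ℤ) [ZMOD (p : ℤ)] := Int.natCast_modEq_iff.2 h
    have h2 := (hcl.symm.trans h1).dvd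
    have e2 : ((2 * n : ℕ) : ℤ) - ((n : ℤ) - r) = (n : ℤ) + r := by push_cast; ring
    rwa [e2] at h2

lemma sing_pos (n : ℕ) : 0 < sing n := by
  unfold sing
  have h1 := C₂_ge 2 le_rfl
  have h2 := PP_half 2 le_rfl
  have hC : 0 < C₂ := by
    refine lt_of_lt_of_le ?_ h1
    push_cast
    nlinarith
  have h3 : 0 < ∏ p ∈ n.primeFactors.filter (fun p => 2 < p), ((p : ℝ) - 1) / ((p : ℝ) - 2) := by
    apply prod_pos
    intro p hp
    rw [mem_filter] at hp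
    have h : (3 : ℝ) ≤ p := by exact_mod_cast hp.2
    apply div_pos <;> linarith
  positivity

lemma energy_eq (h x : ℕ) (s : ℕ → ℕ) :
    Pool.Agent.H373R2.T7.energy h x (fun m => ((2 * s m : ℕ) : ℤ)) = energy h x s := by
  unfold energy Pool.Agent.H373R2.T7.energy
  congr 1
  apply filter_congr
  intro q _
  change (∑ i, ((2 * s (q.1 i) : ℕ) : ℤ) = ∑ i, ((2 * s (q.2 i) : ℕ) : ℤ)) ↔ _
  have e : ∀ v : Fin h → ℕ, (∑ i, ((2 * s (v i) : ℕ) : ℤ)) = 2 * ((∑ i, s (v i) : ℕ) : ℤ) := by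
    intro v
    rw [Nat.cast_sum, mul_sum]
    apply sum_congr rfl
    intro i _
    push_cast
    ring
  rw [e, e]
  constructor
  · intro h; omega
  · intro h; omega

theorem first (q : ℕ) (hsq : Squarefree q) (h C U : ℕ) (hh : 1 ≤ h) (ε : ℝ) (hε : 0 < ε) :
    ∃ N₀ : ℕ, ∀ N : ℕ, N₀ ≤ N → ∀ (x : ℕ) (s : ℕ → ℕ),
      (∀ m ∈ Icc 1 x, 1 ≤ s m ∧ s m ≤ N) →
      (energy h x s : ℝ) * N ≤ Real.log N ^ C * (x : ℝ) ^ (2 * h) →
      (bad ε q x s : ℝ) ≤ x / Real.log N ^ U := by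
  classical
  have hq : 1 ≤ q := Nat.one_le_iff_ne_zero.2 hsq.ne_zero
  set ε' : ℝ := min ε (1 / 2) with hε'
  have hε'0 : 0 < ε' := lt_min hε (by norm_num)
  have hε'1 : ε' ≤ 1 / 2 := min_le_right _ _
  obtain ⟨N₀, h0⟩ := main_c q hq hsq h (C + 1) U hh ε' hε'0
  obtain ⟨N₁, h1⟩ := Pool.Agent.H373R2.T7.ev_L' 2
  refine ⟨N₀ + N₁ + 1, fun N hN x s hs hE => ?_⟩
  have hL := h1 N (by omega)
  have hN1 : (1 : ℝ) ≤ N := by exact_mod_cast (by omega : 1 ≤ N)
  have hcast : ((2 * N : ℕ) : ℝ) = 2 * N := by push_cast; ring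
  have hL2 : Real.log N ≤ Real.log ((2 * N : ℕ) : ℝ) := by
    apply Real.log_le_log (by linarith)
    rw [hcast]; linarith
  have hL0 : 0 < Real.log N := by linarith
  obtain ⟨S, hS1, hS2⟩ := h0 (2 * N) (by omega) x (fun m => 2 * s m) (by
    intro m hm
    have := hs m hm
    refine ⟨⟨s m, by ring⟩, by omega, by omega⟩) (by
    rw [energy_eq, hcast]
    have hx : (0 : ℝ) ≤ (x : ℝ) ^ (2 * h) := by positivity
    calc (energy h x s : ℝ) * (2 * N) = 2 * ((energy h x s : ℝ) * N) := by ring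
      _ ≤ 2 * (Real.log N ^ C * (x : ℝ) ^ (2 * h)) := by linarith
      _ ≤ Real.log N * (Real.log N ^ C * (x : ℝ) ^ (2 * h)) :=
          mul_le_mul_of_nonneg_right hL (by positivity)
      _ = Real.log N ^ (C + 1) * (x : ℝ) ^ (2 * h) := by ring
      _ ≤ Real.log ((2 * N : ℕ) : ℝ) ^ (C + 1) * (x : ℝ) ^ (2 * h) := by
          apply mul_le_mul_of_nonneg_right _ hx
          exact pow_le_pow_left₀ hL0.le hL2 _
      _ = _ := by rw [hcast])
  have hSN : (S.card : ℝ) ≤ x / Real.log N ^ U := by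
    refine hS1.trans ?_
    apply div_le_div_of_nonneg_left (by positivity) (by positivity)
    exact pow_le_pow_left₀ hL0.le hL2 _
  refine le_trans ?_ hSN
  have h3 : (Icc 1 x).filter (fun m => ¬ Good ε q (s m)) ⊆ S := by
    intro m hm
    rw [mem_filter] at hm
    by_contra hc
    apply hm.2
    intro r hr
    have hsm := hs m hm.1
    have hr' : IsCoprime (((s m : ℕ) : ℤ) ^ 2 - r ^ 2) (q : ℤ) := Int.isCoprime_iff_gcd_eq_one.2 hr
    have key := hS2 m hm.1 hc (cl q r (s m)) (cl_adm q hq r (s m) hr')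
    have hadm : adm q (s m) = Aq q (2 * s m) := adm_count q (s m) hsq
    rw [← card_sols q hq r (s m)] at key
    have e1 : sing (2 * s m) / (Aq q (2 * s m) : ℝ) * (((2 * s m : ℕ) : ℝ) / Real.log ((2 * s m : ℕ) : ℝ) ^ 2) =
        HL (2 * s m) / (adm q (s m) : ℝ) := by
      unfold HL
      rw [hadm]
      ring
    rw [e1] at key
    have hA : 0 < adm q (s m) := by
      rw [hadm]
      exact Aq_pos q (2 * s m) ⟨s m, by ring⟩
    have hAr : (0 : ℝ) < adm q (s m) := by exact_mod_cast hA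
    have hn2 : (1 : ℝ) < ((2 * s m : ℕ) : ℝ) := by exact_mod_cast (by omega : 1 < 2 * s m)
    have hHL : 0 < HL (2 * s m) / (adm q (s m) : ℝ) := by
      unfold HL
      have h4 := sing_pos (2 * s m)
      have h5 := Real.log_pos hn2
      positivity
    refine ⟨?_, key.trans (mul_le_mul_of_nonneg_right (min_le_left _ _) hHL.le)⟩
    have h6 := (abs_le.1 key).1
    have h7 : ε' * (HL (2 * s m) / (adm q (s m) : ℝ)) ≤ 1 / 2 * (HL (2 * s m) / (adm q (s m) : ℝ)) :=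
      mul_le_mul_of_nonneg_right hε'1 hHL.le
    have h8 : (0 : ℝ) < ((sols q r (s m)).card : ℝ) := by linarith
    exact_mod_cast h8
  unfold bad
  exact_mod_cast card_le_card h3

end Pool.Agent.H945R3.GAP
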